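import Pool.Agent.X136.HT.Stm

set_option autoImplicit false
open MeasureTheory Set

namespace Pool.Agent.X193.HT
open Pool.Agent.X136.HT

/-- convexity -/
lemma conv {g a t : ℝ} (hg : 1 ≤ g) (ha : 0 ≤ a) (ht : 0 < t) :
    t ^ g - a ^ g ≤ g * (t - a) * t ^ (g - 1) := by
  have h1 : (-1 : ℝ) ≤ a / t - 1 := by
    have : 0 ≤ a / t := by positivity
    linarith
  have h2 := one_add_mul_self_le_rpow_one_add h1 hg
  have h3 : (1 + (a / t - 1)) = a / t := by ring
  rw [h3, Real.div_rpow ha ht.le] at h2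
  have htg : 0 < t ^ g := Real.rpow_pos_of_pos ht g
  have h4 : t ^ (g - 1) = t ^ g / t := Real.rpow_sub_one ht.ne' g
  rw [h4]
  have h5 := mul_le_mul_of_nonneg_right h2 htg.le
  have h6 : a ^ g / t ^ g * t ^ g = a ^ g := div_mul_cancel₀ _ htg.ne'
  rw [h6] at h5
  have h7 : (1 + g * (a / t - 1)) * t ^ g = t ^ g - g * (t - a) * (t ^ g / t) := by
    field_simp
    ring
  linarith

lemma deriv_ineq {p a t : ℝ} (hp : 1 < p) (ha : 0 < a) (ht : a < t) :
    p * (t ^ (p / (p - 1)) - a ^ (p / (p - 1))) ^ p * t ^ (-1 - p / (p - 1)) ≤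
      p ^ p / (p - 1) ^ (p - 1) * (1 * p * (t - a) ^ (p - 1)) -
      ((p - 1) * ((p / (p - 1) * t ^ (p / (p - 1) - 1)) * p *
        (t ^ (p / (p - 1)) - a ^ (p / (p - 1))) ^ (p - 1)) * t ^ (-(p / (p - 1))) +
       (p - 1) * (t ^ (p / (p - 1)) - a ^ (p / (p - 1))) ^ p *
        (-(p / (p - 1)) * t ^ (-(p / (p - 1)) - 1))) := by
  have hp1 : 0 < p - 1 := by linarith
  have hp0 : 0 < p := by linarith
  set g : ℝ := p / (p - 1) with hg
  have hgp : g * (p - 1) = p := div_mul_cancel₀ _ hp1.ne'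
  have hg1 : 1 < g := by rw [hg, lt_div_iff₀ hp1]; linarith
  have ht0 : 0 < t := ha.trans ht
  set N : ℝ := t ^ g - a ^ g with hN
  have hN0 : 0 < N := by
    rw [hN, sub_pos]
    exact Real.rpow_lt_rpow ha.le ht (by linarith)
  have hC : p ^ p / (p - 1) ^ (p - 1) = p * g ^ (p - 1) := by
    rw [hg, Real.div_rpow hp0.le hp1.le, ← mul_div_assoc]
    congr 1
    rw [← Real.rpow_one_add' hp0.le (by linarith)]
    congr 1
    ring
  have h1 : N ^ (p - 1) ≤ g ^ (p - 1) * (t - a) ^ (p - 1) * t := by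
    have h2 := conv hg1.le ha.le ht0
    rw [← hN] at h2
    have h3 := Real.rpow_le_rpow hN0.le h2 hp1.le
    refine h3.trans (le_of_eq ?_)
    rw [Real.mul_rpow (by have := sub_pos.2 ht; positivity) (Real.rpow_nonneg ht0.le _),
      Real.mul_rpow (by linarith) (sub_pos.2 ht).le, ← Real.rpow_mul ht0.le]
    congr 1
    have : (g - 1) * (p - 1) = 1 := by linarith [hgp, sub_mul g 1 (p - 1)]
    rw [this, Real.rpow_one]
  have e1 : t ^ (g - 1) * t ^ (-g) = 1 / t := by
    rw [← Real.rpow_add ht0]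
    have : g - 1 + -g = -1 := by ring
    rw [this, Real.rpow_neg_one, one_div]
  have e2 : (-g - 1) = -1 - g := by ring
  rw [hC, e2]
  have e3 : (p - 1) * ((g * t ^ (g - 1)) * p * N ^ (p - 1)) * t ^ (-g)
      = (g * (p - 1)) * p * N ^ (p - 1) * (t ^ (g - 1) * t ^ (-g)) := by ring
  have e4 : (p - 1) * N ^ p * (-g * t ^ (-1 - g)) = -((g * (p - 1)) * N ^ p * t ^ (-1 - g)) := by ring
  rw [e3, e4, e1, hgp]
  have h5 : p * p * N ^ (p - 1) * (1 / t) ≤ p * g ^ (p - 1) * (1 * p * (t - a) ^ (p - 1)) := by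
    rw [mul_one_div, div_le_iff₀ ht0]
    calc p * p * N ^ (p - 1) ≤ p * p * (g ^ (p - 1) * (t - a) ^ (p - 1) * t) :=
          mul_le_mul_of_nonneg_left h1 (by positivity)
      _ = _ := by ring
  linarith

/-- the middle part -/
lemma middle {p a b : ℝ} (hp : 1 < p) (ha : 0 ≤ a) (hab : a < b) :
    ∫⁻ t in Ioc a b, ENNReal.ofReal
      (p * (t ^ (p / (p - 1)) - a ^ (p / (p - 1))) ^ p * t ^ (-1 - p / (p - 1))) ≤
    ENNReal.ofReal (p ^ p / (p - 1) ^ (p - 1) * (b - a) ^ p -
      (p - 1) * (b ^ (p / (p - 1)) - a ^ (p / (p - 1))) ^ p * b ^ (-(p / (p - 1)))) := by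
  have hp1 : 0 < p - 1 := by linarith
  have hp0 : 0 < p := by linarith
  have hgp : p / (p - 1) * (p - 1) = p := div_mul_cancel₀ _ hp1.ne'
  have hg1 : 1 < p / (p - 1) := by rw [lt_div_iff₀ hp1]; linarith
  have hb0 : 0 < b := lt_of_le_of_lt ha hab
  rcases ha.eq_or_lt with rfl | ha
  · -- a = 0
    set g : ℝ := p / (p - 1) with hg
    have h0 : (0 : ℝ) ^ g = 0 := Real.zero_rpow (by linarith)
    have hC : p ^ p / (p - 1) ^ (p - 1) = p * g ^ (p - 1) := by
      rw [hg, Real.div_rpow hp0.le hp1.le, ← mul_div_assoc]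
      congr 1
      rw [← Real.rpow_one_add' hp0.le (by linarith)]
      congr 1
      ring
    have hCp : p ≤ p ^ p / (p - 1) ^ (p - 1) := by
      rw [hC]
      have : 1 ≤ g ^ (p - 1) := Real.one_le_rpow hg1.le hp1.le
      nlinarith
    have e1 : ∀ t ∈ Ioc 0 b, ENNReal.ofReal (p * (t ^ g - 0 ^ g) ^ p * t ^ (-1 - g))
        = ENNReal.ofReal (p * t ^ (p - 1)) := by
      intro t ht
      congr 1
      rw [h0, sub_zero, ← Real.rpow_mul ht.1.le, mul_assoc, ← Real.rpow_add ht.1]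
      congr 2
      have : g * p - g = p := by linarith [hgp, mul_sub g p 1]
      linarith
    rw [setLIntegral_congr_fun measurableSet_Ioc e1]
    have hint : IntegrableOn (fun t : ℝ => p * t ^ (p - 1)) (Ioc 0 b) := by
      have := (intervalIntegral.intervalIntegrable_rpow' (a := 0) (b := b) (r := p - 1) (by linarith)).const_mul p
      rwa [intervalIntegrable_iff_integrableOn_Ioc_of_le hb0.le] at this
    rw [← ofReal_integral_eq_lintegral_ofReal hint (by
      filter_upwards [ae_restrict_mem measurableSet_Ioc] with t ht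
      have := Real.rpow_nonneg ht.1.le (p - 1)
      positivity)]
    apply ENNReal.ofReal_le_ofReal
    rw [← intervalIntegral.integral_of_le hb0.le, intervalIntegral.integral_const_mul,
      integral_rpow (Or.inl (by linarith))]
    have e3 : p - 1 + 1 = p := by ring
    rw [e3, Real.zero_rpow hp0.ne', sub_zero, h0, sub_zero, sub_zero, mul_assoc (p - 1),
      ← Real.rpow_mul hb0.le, ← Real.rpow_add hb0]
    have e4 : g * p + -g = p := by linarith [hgp, mul_sub g p 1]
    rw [e4]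
    have hbp : 0 < b ^ p := Real.rpow_pos_of_pos hb0 p
    have e5 : p * (b ^ p / p) = b ^ p := by field_simp
    rw [e5]
    nlinarith
  · have hcN : ContinuousOn (fun t : ℝ => (t ^ (p / (p - 1)) - a ^ (p / (p - 1))) ^ p) (Icc a b) := by
      apply ContinuousOn.rpow_const
      · apply ContinuousOn.sub _ continuousOn_const
        exact continuousOn_id.rpow_const fun t ht => Or.inl (ha.trans_le ht.1).ne'
      · exact fun _ _ => Or.inr hp0.le
    have hcont : ContinuousOn (fun t : ℝ => p * (t ^ (p / (p - 1)) - a ^ (p / (p - 1))) ^ p *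
        t ^ (-1 - p / (p - 1))) (Icc a b) := by
      apply ContinuousOn.mul
      · exact continuousOn_const.mul hcN
      · exact continuousOn_id.rpow_const fun t ht => Or.inl (ha.trans_le ht.1).ne'
    have hint : IntegrableOn (fun t : ℝ => p * (t ^ (p / (p - 1)) - a ^ (p / (p - 1))) ^ p *
        t ^ (-1 - p / (p - 1))) (Icc a b) := hcont.integrableOn_Icc
    rw [← ofReal_integral_eq_lintegral_ofReal (hint.mono_set Ioc_subset_Icc_self) (by
      filter_upwards [ae_restrict_mem measurableSet_Ioc] with t ht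
      have ht0 : 0 < t := ha.trans ht.1
      have h1 : 0 ≤ t ^ (p / (p - 1)) - a ^ (p / (p - 1)) := by
        rw [sub_nonneg]
        exact Real.rpow_le_rpow ha.le ht.1.le (by linarith)
      have := Real.rpow_nonneg h1 p
      have := Real.rpow_nonneg ht0.le (-1 - p / (p - 1))
      positivity)]
    apply ENNReal.ofReal_le_ofReal
    rw [← intervalIntegral.integral_of_le hab.le]
    have key := intervalIntegral.integral_le_sub_of_hasDeriv_right_of_le (a := a) (b := b)
      (g := fun t => p ^ p / (p - 1) ^ (p - 1) * (t - a) ^ p -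
        (p - 1) * (t ^ (p / (p - 1)) - a ^ (p / (p - 1))) ^ p * t ^ (-(p / (p - 1))))
      (g' := fun t => p ^ p / (p - 1) ^ (p - 1) * (1 * p * (t - a) ^ (p - 1)) -
      ((p - 1) * ((p / (p - 1) * t ^ (p / (p - 1) - 1)) * p *
        (t ^ (p / (p - 1)) - a ^ (p / (p - 1))) ^ (p - 1)) * t ^ (-(p / (p - 1))) +
       (p - 1) * (t ^ (p / (p - 1)) - a ^ (p / (p - 1))) ^ p *
        (-(p / (p - 1)) * t ^ (-(p / (p - 1)) - 1))))
      (φ := fun t : ℝ => p * (t ^ (p / (p - 1)) - a ^ (p / (p - 1))) ^ p *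
        t ^ (-1 - p / (p - 1))) hab.le ?_ ?_ hint ?_
    · refine key.trans (le_of_eq ?_)
      simp only [sub_self]
      rw [Real.zero_rpow hp0.ne']
      ring
    · apply ContinuousOn.sub
      · apply continuousOn_const.mul
        apply ContinuousOn.rpow_const (continuousOn_id.sub continuousOn_const)
        exact fun _ _ => Or.inr hp0.le
      · apply ContinuousOn.mul
        · exact continuousOn_const.mul hcN
        · exact continuousOn_id.rpow_const fun t ht => Or.inl (ha.trans_le ht.1).ne'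
    · intro t ht
      have ht0 : 0 < t := ha.trans ht.1
      apply HasDerivAt.hasDerivWithinAt
      have hN0 : t ^ (p / (p - 1)) - a ^ (p / (p - 1)) ≠ 0 := by
        apply ne_of_gt
        rw [sub_pos]
        exact Real.rpow_lt_rpow ha.le ht.1 (by linarith)
      have d1 : HasDerivAt (fun t : ℝ => (t - a) ^ p) (1 * p * (t - a) ^ (p - 1)) t :=
        ((hasDerivAt_id t).sub_const a).rpow_const (Or.inr hp.le)
      have d2 : HasDerivAt (fun t : ℝ => t ^ (p / (p - 1)) - a ^ (p / (p - 1)))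
          (p / (p - 1) * t ^ (p / (p - 1) - 1)) t :=
        (Real.hasDerivAt_rpow_const (Or.inl ht0.ne')).sub_const _
      have d3 := d2.rpow_const (p := p) (Or.inl hN0)
      have d4 : HasDerivAt (fun t : ℝ => t ^ (-(p / (p - 1))))
          (-(p / (p - 1)) * t ^ (-(p / (p - 1)) - 1)) t :=
        Real.hasDerivAt_rpow_const (Or.inl ht0.ne')
      exact (d1.const_mul _).sub ((d3.const_mul (p - 1)).mul d4)
    · intro t ht
      exact deriv_ineq hp ha ht.1

/-- the tail -/
lemma tail {p a b : ℝ} (hp : 1 < p) (ha : 0 ≤ a) (hab : a < b) :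
    ∫⁻ t in Ioi b, ENNReal.ofReal
      (p * (b ^ (p / (p - 1)) - a ^ (p / (p - 1))) ^ p * t ^ (-1 - p / (p - 1))) =
    ENNReal.ofReal ((p - 1) * (b ^ (p / (p - 1)) - a ^ (p / (p - 1))) ^ p * b ^ (-(p / (p - 1)))) := by
  have hp1 : 0 < p - 1 := by linarith
  have hp0 : 0 < p := by linarith
  have hg1 : 1 < p / (p - 1) := by rw [lt_div_iff₀ hp1]; linarith
  have hb0 : 0 < b := lt_of_le_of_lt ha hab
  have hN : 0 ≤ b ^ (p / (p - 1)) - a ^ (p / (p - 1)) := by
    rw [sub_nonneg]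
    exact Real.rpow_le_rpow ha hab.le (by linarith)
  have hint : IntegrableOn (fun t : ℝ => p * (b ^ (p / (p - 1)) - a ^ (p / (p - 1))) ^ p *
      t ^ (-1 - p / (p - 1))) (Ioi b) :=
    (integrableOn_Ioi_rpow_of_lt (by linarith) hb0).const_mul _
  rw [← ofReal_integral_eq_lintegral_ofReal hint (by
    filter_upwards [ae_restrict_mem measurableSet_Ioi] with t ht
    have ht0 : 0 < t := hb0.trans ht
    have := Real.rpow_nonneg hN p
    have := Real.rpow_nonneg ht0.le (-1 - p / (p - 1))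
    positivity)]
  congr 1
  rw [integral_const_mul, integral_Ioi_rpow_of_lt (by linarith) hb0]
  have e : -1 - p / (p - 1) + 1 = -(p / (p - 1)) := by ring
  rw [e]
  field_simp

theorem t_EDGE : S_EDGE := by
  intro p hp a b ha hab
  have hp1 : 0 < p - 1 := by linarith
  have hp0 : 0 < p := by linarith
  have hgp : p / (p - 1) * (p - 1) = p := div_mul_cancel₀ _ hp1.ne'
  have hg1 : 1 < p / (p - 1) := by rw [lt_div_iff₀ hp1]; linarith
  rcases hab.eq_or_lt with rfl | hab
  · simp [Real.zero_rpow hp0.ne']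
  have hb0 : 0 < b := lt_of_le_of_lt ha hab
  have hN : 0 ≤ b ^ (p / (p - 1)) - a ^ (p / (p - 1)) := by
    rw [sub_nonneg]
    exact Real.rpow_le_rpow ha hab.le (by linarith)
  set F : ℝ → ENNReal := fun t => ENNReal.ofReal
      (p * ((min (b / t) 1) ^ (p / (p - 1)) - (min (a / t) 1) ^ (p / (p - 1))) ^ p * t ^ (p - 1)) with hF
  have hsub : Ioi (0 : ℝ) ⊆ (Ioc 0 a ∪ Ioc a b) ∪ Ioi b := by
    intro t ht
    rcases le_or_gt t a with h | h
    · exact Or.inl (Or.inl ⟨ht, h⟩)
    · rcases le_or_gt t b with h' | h'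
      · exact Or.inl (Or.inr ⟨h, h'⟩)
      · exact Or.inr h'
  -- rewriting
  have hexp : ∀ t : ℝ, 0 < t → ∀ c : ℝ, 0 ≤ c → (c / t ^ (p / (p - 1))) ^ p * t ^ (p - 1)
      = c ^ p * t ^ (-1 - p / (p - 1)) := by
    intro t ht c hc
    rw [Real.div_rpow hc (Real.rpow_nonneg ht.le _), ← Real.rpow_mul ht.le, div_mul_eq_mul_div,
      mul_div_assoc, ← Real.rpow_sub ht]
    congr 2
    have : p / (p - 1) * p - p / (p - 1) = p := by linarith [hgp, mul_sub (p / (p - 1)) p 1]
    linarith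
  have hI1 : ∫⁻ t in Ioc 0 a, F t ≤ 0 := by
    refine le_of_eq ?_
    rw [setLIntegral_congr_fun (g := fun _ => 0) measurableSet_Ioc, lintegral_zero]
    intro t ht
    have h1 : 1 ≤ a / t := by rw [one_le_div ht.1]; exact ht.2
    have h2 : 1 ≤ b / t := by rw [one_le_div ht.1]; exact ht.2.trans hab.le
    simp only [hF]
    rw [min_eq_right h1, min_eq_right h2, sub_self, Real.zero_rpow hp0.ne']
    simp
  have hI2 : ∫⁻ t in Ioc a b, F t ≤ ENNReal.ofReal (p ^ p / (p - 1) ^ (p - 1) * (b - a) ^ p -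
      (p - 1) * (b ^ (p / (p - 1)) - a ^ (p / (p - 1))) ^ p * b ^ (-(p / (p - 1)))) := by
    refine le_trans (le_of_eq ?_) (middle hp ha hab)
    apply setLIntegral_congr_fun measurableSet_Ioc
    intro t ht
    have ht0 : 0 < t := lt_of_le_of_lt ha ht.1
    have h1 : a / t ≤ 1 := by rw [div_le_one ht0]; exact ht.1.le
    have h2 : 1 ≤ b / t := by rw [one_le_div ht0]; exact ht.2
    simp only [hF]
    congr 1
    rw [min_eq_left h1, min_eq_right h2, Real.one_rpow, Real.div_rpow ha ht0.le, mul_assoc, mul_assoc]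
    congr 1
    have h3 : 0 ≤ t ^ (p / (p - 1)) - a ^ (p / (p - 1)) := by
      rw [sub_nonneg]
      exact Real.rpow_le_rpow ha ht.1.le (by linarith)
    rw [← hexp t ht0 _ h3, sub_div, div_self (Real.rpow_pos_of_pos ht0 _).ne']
  have hI3 : ∫⁻ t in Ioi b, F t ≤ ENNReal.ofReal ((p - 1) *
      (b ^ (p / (p - 1)) - a ^ (p / (p - 1))) ^ p * b ^ (-(p / (p - 1)))) := by
    refine le_trans (le_of_eq ?_) (tail hp ha hab).le
    apply setLIntegral_congr_fun measurableSet_Ioi
    intro t ht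
    have ht0 : 0 < t := hb0.trans ht
    have h1 : a / t ≤ 1 := by rw [div_le_one ht0]; exact (hab.trans ht).le
    have h2 : b / t ≤ 1 := by rw [div_le_one ht0]; exact (le_of_lt ht)
    simp only [hF]
    congr 1
    rw [min_eq_left h1, min_eq_left h2, Real.div_rpow ha ht0.le, Real.div_rpow hb0.le ht0.le,
      ← sub_div, mul_assoc, hexp t ht0 _ hN, mul_assoc]
  have hX : 0 ≤ p ^ p / (p - 1) ^ (p - 1) * (b - a) ^ p -
      (p - 1) * (b ^ (p / (p - 1)) - a ^ (p / (p - 1))) ^ p * b ^ (-(p / (p - 1))) := by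
    have h1 := conv hg1.le ha hb0
    have h2 := Real.rpow_le_rpow hN h1 hp0.le
    have hba : 0 < b - a := sub_pos.2 hab
    have hg0 : 0 < p / (p - 1) := by linarith
    rw [Real.mul_rpow (by positivity) (Real.rpow_nonneg hb0.le _), Real.mul_rpow hg0.le hba.le,
      ← Real.rpow_mul hb0.le] at h2
    have e1 : (p / (p - 1) - 1) * p = p / (p - 1) := by
      linarith [hgp, mul_sub (p / (p - 1)) p 1, sub_mul (p / (p - 1)) 1 p]
    rw [e1] at h2
    have hC : p ^ p / (p - 1) ^ (p - 1) = (p - 1) * (p / (p - 1)) ^ p := by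
      rw [Real.div_rpow hp0.le hp1.le, Real.rpow_sub_one hp1.ne']
      have : 0 < (p - 1) ^ p := Real.rpow_pos_of_pos hp1 _
      field_simp
    have hbg : b ^ (p / (p - 1)) * b ^ (-(p / (p - 1))) = 1 := by
      rw [← Real.rpow_add hb0, add_neg_cancel, Real.rpow_zero]
    have hbn : 0 ≤ b ^ (-(p / (p - 1))) := Real.rpow_nonneg hb0.le _
    rw [hC, sub_nonneg]
    calc (p - 1) * (b ^ (p / (p - 1)) - a ^ (p / (p - 1))) ^ p * b ^ (-(p / (p - 1)))
        ≤ (p - 1) * ((p / (p - 1)) ^ p * (b - a) ^ p * b ^ (p / (p - 1))) * b ^ (-(p / (p - 1))) := by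
          gcongr
      _ = (p - 1) * (p / (p - 1)) ^ p * (b - a) ^ p * (b ^ (p / (p - 1)) * b ^ (-(p / (p - 1)))) := by ring
      _ = _ := by rw [hbg, mul_one]
  have hY : 0 ≤ (p - 1) * (b ^ (p / (p - 1)) - a ^ (p / (p - 1))) ^ p * b ^ (-(p / (p - 1))) := by
    have := Real.rpow_nonneg hN p
    have := Real.rpow_nonneg hb0.le (-(p / (p - 1)))
    positivity
  calc ∫⁻ t in Ioi (0 : ℝ), F t ≤ ∫⁻ t in (Ioc 0 a ∪ Ioc a b) ∪ Ioi b, F t :=
        lintegral_mono_set hsub
    _ ≤ (∫⁻ t in Ioc 0 a ∪ Ioc a b, F t) + ∫⁻ t in Ioi b, F t := lintegral_union_le _ _ _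
    _ ≤ ((∫⁻ t in Ioc 0 a, F t) + ∫⁻ t in Ioc a b, F t) + ∫⁻ t in Ioi b, F t := by
        gcongr
        exact lintegral_union_le _ _ _
    _ ≤ (0 + ENNReal.ofReal (p ^ p / (p - 1) ^ (p - 1) * (b - a) ^ p -
      (p - 1) * (b ^ (p / (p - 1)) - a ^ (p / (p - 1))) ^ p * b ^ (-(p / (p - 1))))) +
        ENNReal.ofReal ((p - 1) *
      (b ^ (p / (p - 1)) - a ^ (p / (p - 1))) ^ p * b ^ (-(p / (p - 1)))) :=
        add_le_add (add_le_add hI1 hI2) hI3
    _ = ENNReal.ofReal (p ^ p / (p - 1) ^ (p - 1) * (b - a) ^ p) := by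
        rw [zero_add, ← ENNReal.ofReal_add hX hY]
        congr 1
        ring

end Pool.Agent.X193.HT
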